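import Pool.Agent.Lib.MP_64ae42_mp.Final

/-!
# MP_64ae42_mp: universal covers of finite graphs and lifted Jacobi matrices

A finite graph with loops and multiple edges is given by its vertices `V`, its darts (oriented
edges) `D`, the source `src : D → V` and the reversal `rev : D → D`, an involution without fixed
points. The tree of reduced paths is a universal cover.
-/

set_option autoImplicit false

namespace Pool.Agent.MP_64ae42_mp_ins

open Pool.Agent.MP_64ae42_mp
open scoped ENNReal InnerProductSpace NNReal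

/-- `T` with the projections `p` of the vertices and `δ` of the darts is a universal cover of the
graph with darts `D`, source map `src` and reversal `rev`: `T` is a tree, the projections commute
with source and reversal, and over every vertex `u` of `T` the darts at `u` correspond
bijectively to the darts at `p u`. -/
structure IsUniversalCover {V D W : Type} (src : D → V) (rev : D → D) (T : SimpleGraph W)
    (p : W → V) (δ : T.Dart → D) : Prop where
  tree : T.IsTree
  reversal : ∀ ε : T.Dart, δ ε.symm = rev (δ ε)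
  source : ∀ ε : T.Dart, src (δ ε) = p ε.fst
  local_bij : ∀ (u : W) (d : D), src d = p u → ∃! ε : T.Dart, ε.fst = u ∧ δ ε = d

/-- `H` is the lift to `T` of the Jacobi matrix with edge weights `a` and potential `b`: the value
of `H f` at `u` is `b (p u) f(u)` plus the sum of `a (δ ε) f(u')` over the edges `ε` of `T` from
`u` to a vertex `u'`. -/
def IsLift {V D W : Type} (T : SimpleGraph W) (p : W → V) (δ : T.Dart → D) (a : D → ℝ)
    (b : V → ℝ) (H : lp (fun _ : W => ℂ) 2 →L[ℂ] lp (fun _ : W => ℂ) 2) : Prop :=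
  ∀ (f : lp (fun _ : W => ℂ) 2) (u : W), H f u = (b (p u) : ℂ) * f u +
    ∑' ε : {ε : T.Dart // ε.fst = u}, (a (δ ε.1) : ℂ) * f ε.1.snd

section

variable {V D : Type} (src : D → V) (rev : D → D) (v0 : V)

/-- the tree of reduced paths -/
def treeG : SimpleGraph (paths src rev v0) where
  Adj x y := (∃ d, y.1 = x.1 ++ [d]) ∨ ∃ d, x.1 = y.1 ++ [d]
  symm := ⟨fun _ _ h => h.symm⟩
  loopless := ⟨fun x h => by
    rcases h with ⟨d, h⟩ | ⟨d, h⟩ <;> simp at h⟩

theorem treeG_connected : (treeG src rev v0).Connected := by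
  rw [SimpleGraph.connected_iff_exists_forall_reachable]
  refine ⟨⟨[], nil_mem_paths src rev v0⟩, ?_⟩
  have key : ∀ (n : ℕ) (x : paths src rev v0), x.1.length = n →
      (treeG src rev v0).Reachable ⟨[], nil_mem_paths src rev v0⟩ x := by
    intro n
    induction n with
    | zero =>
      intro x hx
      have : x = ⟨[], nil_mem_paths src rev v0⟩ := Subtype.ext (List.length_eq_zero_iff.1 hx)
      rw [this]
    | succ n ih =>
      intro x hx
      rcases eq_nil_or_snoc x.1 with h | ⟨t, d, h⟩
      · rw [h] at hx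
        simp at hx
      · have hp : (par src rev v0 x).1 = t := by simp [par, h]
        refine (ih (par src rev v0 x) ?_).trans (SimpleGraph.Adj.reachable (Or.inl ⟨d, ?_⟩))
        · rw [hp]
          rw [h] at hx
          simpa using hx
        · rw [hp, h]
  exact fun x => key _ x rfl

/-- a neighbour which is not longer is the parent -/
theorem eq_par_of_adj {x y : paths src rev v0} (h : (treeG src rev v0).Adj x y)
    (hl : y.1.length ≤ x.1.length) : y.1 = x.1.dropLast := by
  rcases h with ⟨d, h⟩ | ⟨d, h⟩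
  · rw [h] at hl
    simp at hl
  · rw [h]
    simp

theorem treeG_acyclic : (treeG src rev v0).IsAcyclic := by
  classical
  intro v c hc
  obtain ⟨x, hx, hmax⟩ := Finset.exists_max_image c.support.toFinset
    (fun x : paths src rev v0 => x.1.length) ⟨v, by simp⟩
  have hx' : x ∈ c.support := by simpa using hx
  have hc' : (c.rotate x hx').IsCycle := hc.rotate hx'
  have hnil : ¬ (c.rotate x hx').Nil := hc'.not_nil
  have h1 : (treeG src rev v0).Adj x (c.rotate x hx').snd := SimpleGraph.Walk.adj_snd hnil
  have h2 : (treeG src rev v0).Adj x (c.rotate x hx').penultimate :=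
    (SimpleGraph.Walk.adj_penultimate hnil).symm
  have m1 : (c.rotate x hx').snd ∈ c.support := by
    rw [← SimpleGraph.Walk.mem_support_rotate_iff c x hx']
    exact List.mem_of_mem_tail (SimpleGraph.Walk.snd_mem_tail_support hnil)
  have m2 : (c.rotate x hx').penultimate ∈ c.support := by
    rw [← SimpleGraph.Walk.mem_support_rotate_iff c x hx']
    exact List.mem_of_mem_dropLast (SimpleGraph.Walk.penultimate_mem_dropLast_support hnil)
  have e1 := eq_par_of_adj src rev v0 h1 (hmax _ (by simpa using m1))
  have e2 := eq_par_of_adj src rev v0 h2 (hmax _ (by simpa using m2))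
  exact hc'.snd_ne_penultimate (Subtype.ext (e1.trans e2.symm))

theorem treeG_isTree : (treeG src rev v0).IsTree :=
  ⟨treeG_connected src rev v0, treeG_acyclic src rev v0⟩

open Classical in
/-- the dart of the graph under a dart of the tree of reduced paths -/
noncomputable def del (ε : (treeG src rev v0).Dart) : D :=
  if h : ∃ d, ε.snd.1 = ε.fst.1 ++ [d] then h.choose
  else rev (ε.adj.resolve_left h).choose

theorem del_child (ε : (treeG src rev v0).Dart) {d : D} (h : ε.snd.1 = ε.fst.1 ++ [d]) :
    del src rev v0 ε = d := by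
  have h' : ∃ d, ε.snd.1 = ε.fst.1 ++ [d] := ⟨d, h⟩
  unfold del
  rw [dif_pos h']
  have h1 : ε.fst.1 ++ [d] = ε.fst.1 ++ [h'.choose] := h.symm.trans h'.choose_spec
  simpa using h1.symm

theorem del_par (ε : (treeG src rev v0).Dart) {d : D} (h : ε.fst.1 = ε.snd.1 ++ [d]) :
    del src rev v0 ε = rev d := by
  have h' : ¬ ∃ d, ε.snd.1 = ε.fst.1 ++ [d] := by
    rintro ⟨e, he⟩
    rw [h] at he
    have := congrArg List.length he
    simp at this
  unfold del
  rw [dif_neg h']
  have := (ε.adj.resolve_left h').choose_spec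
  set e := (ε.adj.resolve_left h').choose
  rw [h] at this
  have h2 : e = d := by simpa using this.symm
  rw [h2]

theorem tgt_child {x : paths src rev v0} {t : List D} {c : D} (hx : x.1 = t ++ [c]) :
    tgt src rev v0 x = src (rev c) := tgt_snoc src rev v0 x t c hx

theorem del_symm (hrev : ∀ d, rev (rev d) = d) (ε : (treeG src rev v0).Dart) :
    del src rev v0 ε.symm = rev (del src rev v0 ε) := by
  rcases ε.adj with ⟨d, h⟩ | ⟨d, h⟩
  · rw [del_child src rev v0 ε h, del_par src rev v0 ε.symm (d := d) h]
  · rw [del_par src rev v0 ε h, del_child src rev v0 ε.symm (d := d) h, hrev]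

theorem src_del (ε : (treeG src rev v0).Dart) :
    src (del src rev v0 ε) = tgt src rev v0 ε.fst := by
  rcases ε.adj with ⟨d, h⟩ | ⟨d, h⟩
  · rw [del_child src rev v0 ε h]
    have h1 := ((append_mem_paths_iff src rev v0 ε.fst.1 d).1 (h ▸ ε.snd.2)).2
    rcases eq_nil_or_snoc ε.fst.1 with h2 | ⟨t, c, h2⟩
    · rw [tgt_nil src rev v0 _ h2]
      exact h1.1 (by rw [h2]; rfl)
    · rw [tgt_snoc src rev v0 _ t c h2]
      exact (h1.2 c (by rw [h2]; simp)).1
  · rw [del_par src rev v0 ε h, tgt_snoc src rev v0 _ _ d h]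

theorem dart_ext {ε ε' : (treeG src rev v0).Dart} (h1 : ε.fst = ε'.fst) (h2 : ε.snd = ε'.snd) :
    ε = ε' := SimpleGraph.Dart.ext _ _ (Prod.ext h1 h2)

theorem del_local (u : paths src rev v0) (d : D) (hd : src d = tgt src rev v0 u) :
    ∃! ε : (treeG src rev v0).Dart, ε.fst = u ∧ del src rev v0 ε = d := by
  by_cases hpar : ∃ t c, u.1 = t ++ [c] ∧ d = rev c
  · obtain ⟨t, c, hu, rfl⟩ := hpar
    have ht : t ∈ paths src rev v0 := by
      have := dropLast_mem_paths src rev v0 u.1 u.2
      rwa [hu, List.dropLast_concat] at this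
    refine ⟨⟨(u, ⟨t, ht⟩), Or.inr ⟨c, hu⟩⟩, ⟨rfl, del_par src rev v0 _ (d := c) hu⟩, ?_⟩
    rintro ε ⟨h1, h2⟩
    refine dart_ext src rev v0 h1 (Subtype.ext ?_)
    rcases ε.adj with ⟨e, he⟩ | ⟨e, he⟩
    · exfalso
      rw [del_child src rev v0 ε he] at h2
      have h3 := ((append_mem_paths_iff src rev v0 ε.fst.1 e).1 (he ▸ ε.snd.2)).2
      exact (h3.2 c (by rw [h1, hu]; simp)).2 h2
    · rw [h1, hu] at he
      have := List.append_inj_left' he rfl
      exact this.symm
  · have hfol : Fol src rev v0 u.1 d := by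
      rcases eq_nil_or_snoc u.1 with h2 | ⟨t, c, h2⟩
      · rw [tgt_nil src rev v0 _ h2] at hd
        refine ⟨fun _ => hd, fun c hc => ?_⟩
        rw [h2] at hc
        simp at hc
      · rw [tgt_snoc src rev v0 _ t c h2] at hd
        refine ⟨fun hc => ?_, fun c' hc => ?_⟩
        · rw [h2] at hc
          simp at hc
        · have : c' = c := by
            rw [h2] at hc
            simpa using hc.symm
          rw [this]
          exact ⟨hd, fun h => hpar ⟨t, c, h2, h⟩⟩
    have hmem : u.1 ++ [d] ∈ paths src rev v0 :=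
      (append_mem_paths_iff src rev v0 u.1 d).2 ⟨u.2, hfol⟩
    refine ⟨⟨(u, ⟨u.1 ++ [d], hmem⟩), Or.inl ⟨d, rfl⟩⟩,
      ⟨rfl, del_child src rev v0 _ (d := d) rfl⟩, ?_⟩
    rintro ε ⟨h1, h2⟩
    refine dart_ext src rev v0 h1 (Subtype.ext ?_)
    rcases ε.adj with ⟨e, he⟩ | ⟨e, he⟩
    · rw [del_child src rev v0 ε he] at h2
      rw [he, h1, h2]
    · exfalso
      rw [del_par src rev v0 ε he] at h2
      rw [h1] at he
      exact hpar ⟨_, e, he, h2.symm⟩

/-- The tree of reduced paths is a universal cover. -/
theorem isUniversalCover (hrev : ∀ d, rev (rev d) = d) :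
    IsUniversalCover src rev (treeG src rev v0) (tgt src rev v0) (del src rev v0) where
  tree := treeG_isTree src rev v0
  reversal := del_symm src rev v0 hrev
  source := src_del src rev v0
  local_bij := del_local src rev v0

/-- The operator `Jac` is the lift of the Jacobi matrix. -/
theorem isLift_Jac [Fintype V] [Fintype D] (a : D → ℝ)
    (ha : ∀ d, a (rev d) = a d) (b : V → ℝ) :
    IsLift (treeG src rev v0) (tgt src rev v0) (del src rev v0) a b (Jac src rev v0 a b) := by
  classical
  intro f u
  rw [Jac_formula]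
  have htgt : ((u.1.getLast?.map (fun d => src (rev d))).getD v0) = tgt src rev v0 u := rfl
  rw [htgt]
  congr 1
  set Φ : {ε : (treeG src rev v0).Dart // ε.fst = u} → paths src rev v0 := fun ε => ε.1.snd
  have hinj : Function.Injective Φ := by
    rintro ⟨ε, h⟩ ⟨ε', h'⟩ he
    exact Subtype.ext (dart_ext src rev v0 (h.trans h'.symm) he)
  have hsupp : Function.support (fun y : paths src rev v0 =>
      (∑ d : D, if (y.1 = u.1 ++ [d] ∨ u.1 = y.1 ++ [d]) then (a d : ℂ) else 0) * f y) ⊆
      Set.range Φ := by
    intro y hy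
    rw [Function.mem_support] at hy
    have hy1 := left_ne_zero_of_mul hy
    obtain ⟨d, _, hd⟩ := Finset.exists_ne_zero_of_sum_ne_zero hy1
    have hd2 : y.1 = u.1 ++ [d] ∨ u.1 = y.1 ++ [d] := by
      by_contra hcon
      simp [hcon] at hd
    refine ⟨⟨⟨(u, y), ?_⟩, rfl⟩, rfl⟩
    rcases hd2 with h | h
    · exact Or.inl ⟨d, h⟩
    · exact Or.inr ⟨d, h⟩
  rw [← hinj.tsum_eq hsupp]
  refine tsum_congr fun ε => ?_
  obtain ⟨ε, rfl⟩ := ε
  show (∑ d : D, if (ε.snd.1 = ε.fst.1 ++ [d] ∨ ε.fst.1 = ε.snd.1 ++ [d]) then (a d : ℂ) else 0) *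
    f ε.snd = (a (del src rev v0 ε) : ℂ) * f ε.snd
  congr 1
  rcases ε.adj with ⟨e, he⟩ | ⟨e, he⟩
  · rw [del_child src rev v0 ε he, Finset.sum_eq_single e]
    · rw [if_pos (Or.inl he)]
    · intro d _ hd
      rw [if_neg]
      rintro (h | h)
      · rw [he] at h
        exact hd (by simpa using h.symm)
      · rw [he] at h
        have := congrArg List.length h
        simp at this
    · simp
  · rw [del_par src rev v0 ε he, ha, Finset.sum_eq_single e]
    · rw [if_pos (Or.inr he)]
    · intro d _ hd
      rw [if_neg]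
      rintro (h | h)
      · rw [he] at h
        have := congrArg List.length h
        simp at this
      · rw [he] at h
        exact hd (by simpa using h.symm)
    · simp

end

end Pool.Agent.MP_64ae42_mp_ins
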