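import Pool.Agent.Lib.MP_64ae42_mp_ins.Cover

/-!
# MP_64ae42_mp: the spectrum of the example is a compact interval of positive length
-/

set_option autoImplicit false

namespace Pool.Agent.MP_64ae42_mp_ins

open Pool.Agent.MP_64ae42_mp
open scoped ENNReal InnerProductSpace NNReal

/-- the root -/
def nilP : paths esrc erev (some false) := ⟨[], nil_mem_paths esrc erev (some false)⟩

theorem rep_mem (n : ℕ) :
    List.replicate n ((false, true, true) : DD) ∈ paths esrc erev (some false) := by
  refine ⟨fun d hd => ?_, fun i d e hd he => ?_⟩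
  · have : d ∈ List.replicate n ((false, true, true) : DD) := List.mem_of_mem_head? hd
    rw [List.eq_of_mem_replicate this]
    rfl
  · have h1 : d ∈ List.replicate n ((false, true, true) : DD) := List.mem_of_getElem? hd
    have h2 : e ∈ List.replicate n ((false, true, true) : DD) := List.mem_of_getElem? he
    rw [List.eq_of_mem_replicate h1, List.eq_of_mem_replicate h2]
    simp [esrc, erev]

theorem infinite_paths : Infinite (paths esrc erev (some false)) := by
  refine Infinite.of_injective (fun n : ℕ => (⟨_, rep_mem n⟩ : paths esrc erev (some false))) ?_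
  intro m n h
  have := congrArg (fun x : paths esrc erev (some false) => x.1.length) h
  simpa using this

theorem EJ_selfAdjoint : IsSelfAdjoint EJ :=
  Jac_isSelfAdjoint esrc erev (some false) (fun _ => (1 : ℝ)) (epot (1 / 4))

/-- the operator is not a multiple of the identity -/
theorem EJ_ne_smul (α : ℂ) :
    EJ ≠ algebraMap ℂ
      (L2 (paths esrc erev (some false)) →L[ℂ] L2 (paths esrc erev (some false))) α := by
  classical
  intro h
  set x1 : paths esrc erev (some false) := ⟨_, rep_mem 1⟩ with hx1
  set f : L2 (paths esrc erev (some false)) := lp.single 2 nilP (1 : ℂ) with hf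
  have hne : x1 ≠ nilP := by
    intro h'
    have := congrArg (fun x : paths esrc erev (some false) => x.1.length) h'
    simp [x1, nilP] at this
  have hpar : par esrc erev (some false) x1 = nilP := Subtype.ext (by simp [par, x1, nilP])
  have h1 : EJ f x1 = 1 := by
    rw [Jac_apply, hpar]
    have e1 : f x1 = 0 := by
      rw [hf, lp.single_apply, Pi.single_eq_of_ne hne]
    have e2 : f nilP = 1 := by
      rw [hf, lp.single_apply, Pi.single_eq_same]
    have e3 : ∀ d : {d : DD // x1.1 ++ [d] ∈ paths esrc erev (some false)},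
        f (child esrc erev (some false) x1 d) = 0 := by
      intro d
      rw [hf, lp.single_apply, Pi.single_eq_of_ne]
      intro h'
      have := congrArg (fun x : paths esrc erev (some false) => x.1.length) h'
      simp [child, nilP] at this
    rw [e1, e2]
    simp only [e3]
    simp [lastW, x1]
  have h2 : EJ f x1 = 0 := by
    rw [h]
    have e1 : f x1 = 0 := by
      rw [hf, lp.single_apply, Pi.single_eq_of_ne hne]
    rw [Algebra.algebraMap_eq_smul_one]
    show (α • f) x1 = 0
    rw [lp.coeFn_smul, Pi.smul_apply, e1, smul_zero]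
  rw [h1] at h2
  exact one_ne_zero h2

/-- the spectrum is not contained in a point -/
theorem EJ_spectrum_not_subset (α : ℝ) : ¬ spectrum ℂ EJ ⊆ {(α : ℂ)} := by
  intro h
  have hsa : IsSelfAdjoint (EJ - algebraMap ℂ _ (α : ℂ)) := by
    refine EJ_selfAdjoint.sub ?_
    rw [IsSelfAdjoint, ← algebraMap_star_comm]
    simp
  have hsp : spectrum ℂ (EJ - algebraMap ℂ _ (α : ℂ)) ⊆ {0} := by
    intro z hz
    rw [← spectrum.sub_singleton_eq] at hz
    obtain ⟨w, hw, w', hw', rfl⟩ := hz
    rw [Set.mem_singleton_iff] at hw'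
    have := h hw
    rw [Set.mem_singleton_iff] at this
    rw [this, hw']
    simp
  have hrad : spectralRadius ℂ (EJ - algebraMap ℂ _ (α : ℂ)) = 0 := by
    unfold spectralRadius
    refine le_antisymm (iSup₂_le fun z hz => ?_) bot_le
    have := hsp hz
    rw [Set.mem_singleton_iff] at this
    rw [this]
    simp
  rw [hsa.spectralRadius_eq_nnnorm] at hrad
  have h0 : EJ - algebraMap ℂ _ (α : ℂ) = 0 := by
    have : ‖EJ - algebraMap ℂ _ (α : ℂ)‖₊ = 0 := by exact_mod_cast hrad
    exact nnnorm_eq_zero.1 this
  exact EJ_ne_smul α (sub_eq_zero.1 h0)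

/-- The spectrum is a compact interval of positive length. -/
theorem EJ_spectrum_eq : ∃ α β : ℝ, α < β ∧
    spectrum ℂ EJ = (fun t : ℝ => (t : ℂ)) '' Set.Icc α β := by
  set S : Set ℝ := {t : ℝ | (t : ℂ) ∈ spectrum ℂ EJ} with hS
  have h1 : spectrum ℂ EJ = (fun t : ℝ => (t : ℂ)) '' S := by
    ext z
    constructor
    · intro hz
      refine ⟨z.re, ?_, (EJ_spectrum_real z hz).symm⟩
      change (z.re : ℂ) ∈ spectrum ℂ EJ
      rw [← EJ_spectrum_real z hz]
      exact hz
    · rintro ⟨t, ht, rfl⟩
      exact ht
  have hcomp : IsCompact S := by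
    have h2 : S = Complex.ofReal ⁻¹' (spectrum ℂ EJ) := rfl
    rw [h2]
    exact Complex.isometry_ofReal.isClosedEmbedding.isCompact_preimage (spectrum.isCompact EJ)
  have hnt : Nontrivial (L2 (paths esrc erev (some false)) →L[ℂ]
      L2 (paths esrc erev (some false))) := by
    refine ⟨EJ, algebraMap ℂ _ 0, EJ_ne_smul 0⟩
  have hne : S.Nonempty := by
    obtain ⟨z, hz⟩ := spectrum.nonempty EJ
    refine ⟨z.re, ?_⟩
    change (z.re : ℂ) ∈ spectrum ℂ EJ
    rw [← EJ_spectrum_real z hz]
    exact hz
  have hord : S.OrdConnected := by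
    constructor
    intro x hx y hy t ht
    rcases trichotomy t with h | h | h
    · exact h
    · have h2 : y ≤ t := h y hy
      have h3 : t = y := le_antisymm ht.2 h2
      rw [h3]
      exact hy
    · have h2 : t ≤ x := h x hx
      have h3 : t = x := le_antisymm h2 ht.1
      rw [h3]
      exact hx
  have hIcc : S = Set.Icc (sInf S) (sSup S) :=
    eq_Icc_of_connected_compact ⟨hne, hord.isPreconnected⟩ hcomp
  refine ⟨sInf S, sSup S, ?_, ?_⟩
  · refine lt_of_not_ge fun hge => EJ_spectrum_not_subset (sSup S) ?_
    rw [h1]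
    rintro _ ⟨t, ht, rfl⟩
    rw [hIcc] at ht
    have : t = sSup S := le_antisymm ht.2 (hge.trans ht.1)
    rw [Set.mem_singleton_iff, ← this]
  · rw [h1]
    exact congrArg _ hIcc

end Pool.Agent.MP_64ae42_mp_ins
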