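import Pool.Agent.Lib.MP_64ae42_mp_ins.Interval

/-!
# MP_64ae42_mp: the Hilbert space of the vertices of the universal cover, lifted operators
-/

set_option autoImplicit false

namespace Pool.Agent.MP_64ae42_mp_ins

open Pool.Agent.MP_64ae42_mp
open scoped ENNReal

/-- The Hilbert space `ℓ²(W)` of the square summable complex functions on `W` with the inner
product `⟨f, g⟩ = ∑ conj (f u) * g u`. -/
def Ell2 (W : Type) : Type := lp (fun _ : W => ℂ) 2

noncomputable instance (W : Type) : NormedAddCommGroup (Ell2 W) :=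
  (inferInstance : NormedAddCommGroup (lp (fun _ : W => ℂ) 2))

noncomputable instance (W : Type) : InnerProductSpace ℂ (Ell2 W) :=
  (inferInstance : InnerProductSpace ℂ (lp (fun _ : W => ℂ) 2))

noncomputable instance (W : Type) : CompleteSpace (Ell2 W) :=
  (inferInstance : CompleteSpace (lp (fun _ : W => ℂ) 2))

/-- The value of `f` at `u`. -/
def Ell2.at {W : Type} (f : Ell2 W) (u : W) : ℂ :=
  (show lp (fun _ : W => ℂ) 2 from f) u

/-- The bounded operators on `ℓ²(W)`. -/
abbrev BOp (W : Type) : Type := Ell2 W →L[ℂ] Ell2 W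

/-- `H` is the lift to `T` of the Jacobi matrix with edge weights `a` and potential `b`: the value
of `H f` at `u` is `b (p u) f(u)` plus the sum of `a (δ ε) f(u')` over the edges `ε` of `T` from
`u` to a vertex `u'`. -/
def IsLiftedJacobi {V D W : Type} (T : SimpleGraph W) (p : W → V) (δ : T.Dart → D) (a : D → ℝ)
    (b : V → ℝ) (H : BOp W) : Prop :=
  ∀ (f : Ell2 W) (u : W), (H f).at u = (b (p u) : ℂ) * f.at u +
    ∑' ε : {ε : T.Dart // ε.fst = u}, (a (δ ε.1) : ℂ) * f.at ε.1.snd

/-- `V, D, src, rev` is a finite connected graph: `rev` is an involution of the set `D` of darts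
(oriented edges) without fixed points. -/
structure IsGraph {V D : Type} (src : D → V) (rev : D → D) : Prop where
  invol : ∀ d, rev (rev d) = d
  no_fixed : ∀ d, rev d ≠ d
  connected : (SimpleGraph.fromRel (fun u v : V => ∃ d, src d = u ∧ src (rev d) = v)).Connected

/-- `EJ` as an operator on `ℓ²`. -/
noncomputable def EH : BOp (paths esrc erev (some false)) := EJ

theorem EH_selfAdjoint : IsSelfAdjoint EH := EJ_selfAdjoint

theorem EH_lift : IsLiftedJacobi (treeG esrc erev (some false)) (tgt esrc erev (some false))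
    (del esrc erev (some false)) (fun _ => 1) (epot (1 / 4)) EH :=
  isLift_Jac esrc erev (some false) (fun _ => 1) (fun _ => rfl) (epot (1 / 4))

theorem EH_spectrum : ∃ α β : ℝ, α < β ∧
    spectrum ℂ EH = (fun t : ℝ => (t : ℂ)) '' Set.Icc α β := EJ_spectrum_eq

end Pool.Agent.MP_64ae42_mp_ins
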